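import Mathlib
import Pool.Agent.Lib.MP_96875a_lc.Defs
import Pool.Agent.Lib.MP_96875a_lc.Main

/-!
# The principle `WF^i_{s4}` does not imply the axiom of choice over `ZF`

`IsZF E` (file `Pool/Agent/Lib/MP_96875a_lc/Defs.lean`) says that the structure `(M, E)` satisfies
all axioms of Zermelo-Fraenkel set theory: extensionality, foundation, pairing, union, power set,
infinity, and the schemata of Separation and Replacement for all first order formulas with
parameters. `WFis4 E` and `AC E` say that the principle of the problem and the axiom of choice hold
in `(M, E)`; functions are sets of Kuratowski pairs, and the index set is the `ω` of the structure.

The model is a countable two-valued quotient of the universe of names over the category of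
countable preorders and names of generic filters, that is, of the inner model `V(ℝ)` of a Cohen
extension. In it every set is, up to surjections in both directions, a disjoint union of a
well-orderable set and of the product of the reals with a well-orderable set, and both
well-orderable parts of a decreasing sequence of sets stabilise.
-/

set_option autoImplicit false

namespace Pool.Agent.Results.MP_96875a_lc.NotImpliesAC

open Pool.Agent.Lib.ZFM

/-- There is a model of `ZF` in which the principle `WF^i_{s4}` holds and the axiom of choice
fails. -/
theorem result : ∃ (M : Type) (E : M → M → Prop), IsZF E ∧ WFis4 E ∧ ¬ AC E :=
  main

end Pool.Agent.Results.MP_96875a_lc.NotImpliesAC
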